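import Pool.Agent.K9h90.HB.Graph
import Pool.Agent.H236R2.HB.Comb

set_option autoImplicit false

open Finset Pool.Agent.H273R2.Bent Pool.Agent.H236R2.HB Pool.Agent.K9h90.HB

/-! # Homogeneous bent functions of every degree `2^a + 2`

For every `a ≥ 1` and all large even `n` there is a bent function in `n` variables which is
homogeneous of degree `2^a + 2`.

Construction: the new point is a permutation of `F_2^{V ∪ E}`, where `V = ℤ/m` and `E` is the set of
edges `e = (p, j)` from `p` to `p + δ_j` with a Sidon type set of shifts.  With `S_p` the sum of the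
variables of the star of the vertex `p`, the outputs are `G_e = x_e + S_p S_q` (the majority of `x_e`,
`S_p + x_e`, `S_q + x_e`, homogeneous of degree `2`) for the edges `e = (p, q)` and
`T_p = S_p + φ(G_e : e out of p)` for the vertices, `φ` the iterated majority of degree `2^a`.  The
outputs determine `G`, then `S`, then `x`.  As `G_e` is `x_e` if `S_p = 0` and `S_q + x_e` if `S_p = 1`,
`T_p = S_p φ(S_q + x_e + 1 : e) + (1 + S_p) φ(x_e : e)`, where the first summand is homogeneous of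
degree `2^a + 1` after the shift by the indicator of the out-neighbours of `p`, and the second one is a
sum of monomials of degrees `2^a` and `2^a + 1`. -/

namespace Pool.Agent.Results.MP_47443c_co.PowerOfTwoPlusTwo

theorem coin {r s : ℕ} (hrs : r.Coprime s) (hr : 0 < r) (hs : 0 < s) (N h : ℕ)
    (hh : r * s + (r + s) * (N + 1) ≤ h) : ∃ a b : ℕ, N < a ∧ N < b ∧ h = r * a + s * b := by
  obtain ⟨h', rfl⟩ := Nat.exists_eq_add_of_le hh
  let x := Nat.chineseRemainder hrs 0 (r * s + h')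
  have h1 : (x : ℕ) ≡ 0 [MOD r] := x.2.1
  have h2 : (x : ℕ) ≡ r * s + h' [MOD s] := x.2.2
  have h3 : (x : ℕ) < r * s := Nat.chineseRemainder_lt_mul hrs _ _ hr.ne' hs.ne'
  obtain ⟨a, ha⟩ := (Nat.modEq_zero_iff_dvd).1 h1
  obtain ⟨b, hb⟩ := (Nat.modEq_iff_dvd' (by omega : (x : ℕ) ≤ r * s + h')).1 h2
  refine ⟨a + (N + 1), b + (N + 1), by omega, by omega, ?_⟩
  have h4 : r * s + h' = r * a + s * b := by omega
  calc r * s + (r + s) * (N + 1) + h' = (r * s + h') + (r + s) * (N + 1) := by ring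
    _ = r * a + s * b + (r + s) * (N + 1) := by rw [h4]
    _ = r * (a + (N + 1)) + s * (b + (N + 1)) := by ring

theorem result : ∀ a : ℕ, 1 ≤ a → ∃ N : ℕ, 2 ≤ N ∧ ∀ n : ℕ, N < n → Even n →
    ∃ S : Finset (Finset (Fin n)), (∀ s ∈ S, s.card = 2 ^ a + 2) ∧
      ∀ c : Fin n → ZMod 2,
        (∑ x : Fin n → ZMod 2,
            (-1 : ℤ) ^ (ZMod.val ((∑ s ∈ S, ∏ i ∈ s, x i) + ∑ i : Fin n, c i * x i))) ^ 2
          = 2 ^ n := by
  intro a ha
  obtain ⟨w, φ, h1, h2⟩ := gadget a
  -- sizes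
  have hM : ∃ M : ℕ, 2 * 3 ^ (w + 1) < M := ⟨_, Nat.lt_succ_self _⟩
  obtain ⟨M, hM⟩ := hM
  have hM0 : 0 < M := by omega
  obtain ⟨m1, hm1⟩ : ∃ m1 : ℕ, m1 = (w + 2) * M + 1 := ⟨_, rfl⟩
  obtain ⟨m2, hm2⟩ : ∃ m2 : ℕ, m2 = (w + 1) * m1 * M + 1 := ⟨_, rfl⟩
  have hm1M : M < m1 := by
    rw [hm1]; nlinarith
  have hm2M : M < m2 := by
    have : M ≤ (w + 1) * m1 * M :=
      Nat.le_mul_of_pos_left _ (Nat.mul_pos (by omega) (by omega))
    omega
  have hw1 : 2 * 3 ^ w < m1 := by
    have : 3 ^ w ≤ 3 ^ (w + 1) := Nat.pow_le_pow_right (by norm_num) (by omega)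
    omega
  have hw2 : 2 * 3 ^ (w + 1) < m2 := by omega
  have i1 : NeZero m1 := ⟨by omega⟩
  have i2 : NeZero m2 := ⟨by omega⟩
  obtain ⟨s1⟩ := gseed (m := m1) a w ha φ h1 h2 (le_refl w) hw1
  obtain ⟨s2⟩ := gseed (m := m2) a w ha φ h1 h2 (Nat.le_succ w) hw2
  have hc1 : Fintype.card (VE m1 w) = m1 * (w + 1) := by
    simp only [Fintype.card_sum, Fintype.card_prod, ZMod.card, Fintype.card_fin]; ring
  have hc2 : Fintype.card (VE m2 (w + 1)) = m2 * (w + 2) := by
    simp only [Fintype.card_sum, Fintype.card_prod, ZMod.card, Fintype.card_fin]; ring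
  obtain ⟨N1, hN1⟩ := hb_of_seed (s1.toSeed (Fintype.equivFinOfCardEq hc1))
  obtain ⟨N2, hN2⟩ := hb_of_seed (s2.toSeed (Fintype.equivFinOfCardEq hc2))
  have hcop : (m1 * (w + 1)).Coprime (m2 * (w + 2)) := by
    have c1 : m1.Coprime m2 := by
      rw [hm2]
      have : (w + 1) * m1 * M + 1 = 1 + m1 * ((w + 1) * M) := by ring
      rw [this, Nat.coprime_add_mul_left_right]
      exact Nat.coprime_one_right _
    have c2 : m1.Coprime (w + 2) := by
      have : (w + 2) * M + 1 = 1 + (w + 2) * M := by ring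
      rw [hm1, this, Nat.coprime_add_mul_left_left]
      exact Nat.coprime_one_left _
    have c3 : (w + 1).Coprime m2 := by
      rw [hm2]
      have : (w + 1) * m1 * M + 1 = 1 + (w + 1) * (m1 * M) := by ring
      rw [this, Nat.coprime_add_mul_left_right]
      exact Nat.coprime_one_right _
    have c4 : (w + 1).Coprime (w + 2) := by
      have : w + 2 = 1 + (w + 1) * 1 := by ring
      rw [this, Nat.coprime_add_mul_left_right]
      exact Nat.coprime_one_right _
    exact Nat.Coprime.mul_left (Nat.Coprime.mul_right c1 c2) (Nat.Coprime.mul_right c3 c4)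
  have hr1 : 0 < m1 * (w + 1) := Nat.mul_pos (by omega) (by omega)
  have hr2 : 0 < m2 * (w + 2) := Nat.mul_pos (by omega) (by omega)
  generalize m1 * (w + 1) = r1 at *
  generalize m2 * (w + 2) = r2 at *
  refine ⟨2 * (r1 * r2 + (r1 + r2) * (N1 + N2 + 1)) + 2, by omega, fun n hn hev => ?_⟩
  obtain ⟨h, rfl⟩ := hev
  obtain ⟨A, B, hA, hB, hAB⟩ := coin hcop hr1 hr2 (N1 + N2) h (by omega)
  have ia : NeZero A := ⟨by omega⟩
  have ib : NeZero B := ⟨by omega⟩
  have H : HB (2 ^ a + 2) (VV A r1 ⊕ VV B r2) :=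
    HB.sum (by positivity) (hN1 A (by omega) ia) (hN2 B (by omega) ib)
  have hc : Fintype.card (VV A r1 ⊕ VV B r2) = h + h := by
    simp only [Fintype.card_sum, Fintype.card_prod, ZMod.card, Fintype.card_fin]
    rw [hAB]; ring
  obtain ⟨S, hS, hbS⟩ := H.equiv (Fintype.equivFinOfCardEq hc)
  refine ⟨S, hS, fun c => ?_⟩
  have := hbS c
  rw [Fintype.card_fin] at this
  exact this

end Pool.Agent.Results.MP_47443c_co.PowerOfTwoPlusTwo
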